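import Pool.Agent.U239.BL.Stm

/-!
Project BL (helper239), package ANA: from vectors to points.
-/

set_option autoImplicit false

namespace Pool.Agent.U803.BL

open Pool.Agent.U239.BL

theorem dy {t T : ℝ} (ht : 1 ≤ t) (htT : t ≤ T) {J : ℕ} (hJ : T < 2 ^ J) :
    1 / t ≤ ∑ i ∈ Finset.range J, (if t ≤ T / 2 ^ i then (2 : ℝ) ^ (i + 1) / T else 0) := by
  have hT : 0 < T := by linarith
  have hJ' : ¬ t ≤ T / 2 ^ J := by
    rw [not_le]
    have : T / 2 ^ J < 1 := by rw [div_lt_one (by positivity)]; exact hJ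
    linarith
  have hex : ∃ n : ℕ, ¬ t ≤ T / 2 ^ n := ⟨J, hJ'⟩
  obtain ⟨i, hi, h1, h2⟩ : ∃ i, i < J ∧ t ≤ T / 2 ^ i ∧ ¬ t ≤ T / 2 ^ (i + 1) := by
    classical
    have h0 := Nat.find_spec hex
    have hle : Nat.find hex ≤ J := Nat.find_min' hex hJ'
    have hpos : Nat.find hex ≠ 0 := by
      intro h
      rw [h] at h0
      apply h0
      simpa using htT
    obtain ⟨m, hm⟩ := Nat.exists_eq_succ_of_ne_zero hpos
    refine ⟨m, by omega, ?_, ?_⟩
    · by_contra hc
      have := Nat.find_min' hex hc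
      omega
    · rw [hm] at h0; exact h0
  have h3 : 1 / t ≤ 2 ^ (i + 1) / T := by
    rw [div_le_div_iff₀ (by linarith) hT]
    rw [not_le, div_lt_iff₀ (by positivity)] at h2
    linarith
  calc 1 / t ≤ (if t ≤ T / 2 ^ i then (2 : ℝ) ^ (i + 1) / T else 0) := by rw [if_pos h1]; exact h3
    _ ≤ _ := Finset.single_le_sum (f := fun i => if t ≤ T / 2 ^ i then (2 : ℝ) ^ (i + 1) / T else 0)
        (fun j _ => by
          show 0 ≤ (if t ≤ T / 2 ^ j then (2 : ℝ) ^ (j + 1) / T else 0)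
          split_ifs
          · positivity
          · exact le_rfl) (Finset.mem_range.2 hi)

theorem low {α : Type} {h : α → ℝ} {S : ℝ → Finset α} (h1 : ∀ x, 1 ≤ h x)
    (hS : ∀ T x, x ∈ S T ↔ h x ≤ T) {T : ℝ} (hT : 0 < T) {J : ℕ} (hJ : T < 2 ^ J) :
    ∑ x ∈ S T, 1 / h x ≤ ∑ i ∈ Finset.range J, (2 : ℝ) ^ (i + 1) / T * ((S (T / 2 ^ i)).card : ℝ) := by
  classical
  calc ∑ x ∈ S T, 1 / h x
      ≤ ∑ x ∈ S T, ∑ i ∈ Finset.range J, (if h x ≤ T / 2 ^ i then (2 : ℝ) ^ (i + 1) / T else 0) :=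
        Finset.sum_le_sum fun x hx => dy (h1 x) ((hS T x).1 hx) hJ
    _ = ∑ i ∈ Finset.range J, ∑ x ∈ S T, (if h x ≤ T / 2 ^ i then (2 : ℝ) ^ (i + 1) / T else 0) :=
        Finset.sum_comm
    _ ≤ _ := by
        refine Finset.sum_le_sum fun i _ => ?_
        rw [← Finset.sum_filter, Finset.sum_const, nsmul_eq_mul, mul_comm]
        refine mul_le_mul_of_nonneg_left ?_ (by positivity)
        have : (S T).filter (fun x => h x ≤ T / 2 ^ i) ⊆ S (T / 2 ^ i) := by
          intro x hx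
          rw [Finset.mem_filter] at hx
          exact (hS _ x).2 hx.2
        exact_mod_cast Finset.card_le_card this

theorem geo1 {T : ℝ} (hT : 0 ≤ T) {J : ℕ} (hJ : ∀ i < J, (2 : ℝ) ^ i ≤ T) :
    ∑ i ∈ Finset.range J, (2 : ℝ) ^ (i + 1) ≤ 4 * T := by
  have h1 : ∀ J : ℕ, ∑ i ∈ Finset.range J, (2 : ℝ) ^ (i + 1) = 2 ^ (J + 1) - 2 := by
    intro J
    induction J with
    | zero => simp
    | succ J ih => rw [Finset.sum_range_succ, ih]; ring
  rw [h1]
  rcases J with _ | J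
  · simp; linarith
  · have := hJ J (by omega)
    rw [pow_succ, pow_succ]
    linarith

theorem geo2 (J : ℕ) : ∑ i ∈ Finset.range J, (2 : ℝ) * (1 / 2) ^ i ≤ 4 := by
  have h1 : ∀ J : ℕ, ∑ i ∈ Finset.range J, (2 : ℝ) * (1 / 2) ^ i = 4 - 4 * (1 / 2) ^ J := by
    intro J
    induction J with
    | zero => simp
    | succ J ih => rw [Finset.sum_range_succ, ih]; ring
  rw [h1]
  have : (0 : ℝ) < (1 / 2) ^ J := by positivity
  linarith

/-- the packing inequality -/
theorem pack {a : ℝ → ℝ} {ρ : ℝ} {D : ℕ} (hρ : 1 ≤ ρ) (hm : Monotone a) (ha : ∀ R, 0 ≤ R → 1 ≤ a R)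
    (hP : ∀ (q : ℕ) (R : ℝ), 1 ≤ q → 0 ≤ R → (q : ℝ) ^ D * a R ≤ a (q * (ρ + R)))
    {y R : ℝ} (hy : 0 ≤ y) (hR : 2 * ρ ≤ R) (hyR : 2 * y ≤ R) :
    a y ≤ 4 ^ D * ((ρ / R) ^ D + (y / R) ^ D) * a R := by
  have hR0 : 0 < R := by linarith
  have hs : 0 < ρ + y := by linarith
  set x : ℝ := R / (ρ + y) with hx
  have hx1 : 1 ≤ x := by rw [hx, one_le_div hs]; linarith
  set q : ℕ := ⌊x⌋₊ with hq
  have hq1 : 1 ≤ q := by rw [hq, Nat.one_le_floor_iff]; exact hx1
  have hqx : (q : ℝ) ≤ x := Nat.floor_le (by linarith)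
  have hqx2 : x < q + 1 := Nat.lt_floor_add_one x
  have hq1' : (1 : ℝ) ≤ q := by exact_mod_cast hq1
  have hxq : x / 2 ≤ q := by linarith
  have h1 := hP q y hq1 hy
  have h2 : a (q * (ρ + y)) ≤ a R := by
    apply hm
    calc (q : ℝ) * (ρ + y) ≤ x * (ρ + y) := by gcongr
      _ = R := by rw [hx]; field_simp
  have hay : 1 ≤ a y := ha y hy
  have h3 : (x / 2) ^ D * a y ≤ a R := by
    refine le_trans (le_trans ?_ h1) h2
    gcongr
  have hx2 : 0 < x / 2 := by linarith
  have h4 : a y ≤ (2 / x) ^ D * a R := by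
    have h5 : (2 / x) ^ D * ((x / 2) ^ D * a y) = a y := by
      rw [← mul_assoc, ← mul_pow]
      have : 2 / x * (x / 2) = 1 := by field_simp
      rw [this, one_pow, one_mul]
    rw [← h5]
    have : (0 : ℝ) ≤ (2 / x) ^ D := by positivity
    exact mul_le_mul_of_nonneg_left h3 this
  have haR : 0 ≤ a R := by have := ha R hR0.le; linarith
  refine h4.trans (mul_le_mul_of_nonneg_right ?_ haR)
  have h6 : 2 / x = 2 * (ρ / R + y / R) := by
    rw [hx]; field_simp
  have h7 : 0 ≤ ρ / R := by positivity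
  have h8 : 0 ≤ y / R := by positivity
  rw [h6]
  rcases le_total (ρ / R) (y / R) with h | h
  · calc (2 * (ρ / R + y / R)) ^ D ≤ (4 * (y / R)) ^ D := by
          apply pow_le_pow_left₀ (by positivity); linarith
      _ = 4 ^ D * (y / R) ^ D := by rw [mul_pow]
      _ ≤ 4 ^ D * ((ρ / R) ^ D + (y / R) ^ D) := by
          apply mul_le_mul_of_nonneg_left _ (by positivity)
          have : 0 ≤ (ρ / R) ^ D := by positivity
          linarith
  · calc (2 * (ρ / R + y / R)) ^ D ≤ (4 * (ρ / R)) ^ D := by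
          apply pow_le_pow_left₀ (by positivity); linarith
      _ = 4 ^ D * (ρ / R) ^ D := by rw [mul_pow]
      _ ≤ 4 ^ D * ((ρ / R) ^ D + (y / R) ^ D) := by
          apply mul_le_mul_of_nonneg_left _ (by positivity)
          have : 0 ≤ (y / R) ^ D := by positivity
          linarith

theorem t_ANA : S_ANA := by
  classical
  intro r d C hr hd hC
  have hd0 : d ≠ 0 := by omega
  set M : ℝ := 4 ^ (d * r) with hM
  have hM1 : 1 ≤ M := one_le_pow₀ (by norm_num)
  have hCr : 1 ≤ C ^ r := one_le_pow₀ hC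
  have hCr1 : 1 ≤ C ^ (r + 1) := one_le_pow₀ hC
  have hC0 : 0 < C := by linarith
  set δ : ℝ := 1 / (32 * C ^ (r + 1) * M) with hδ
  have hδ0 : 0 < δ := by positivity
  have hδ1 : δ ≤ 1 := by
    rw [hδ, div_le_one (by positivity)]
    nlinarith
  have hCδ : C * δ ≤ (1 / 2) ^ d := by
    have h1 : C * δ = 1 / (32 * C ^ r * M) := by
      rw [hδ, pow_succ]; field_simp
    rw [h1, one_div_pow]
    apply one_div_le_one_div_of_le (by positivity)
    have h2 : (2 : ℝ) ^ d ≤ M := by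
      rw [hM]
      calc (2 : ℝ) ^ d ≤ 4 ^ d := pow_le_pow_left₀ (by norm_num) (by norm_num) d
        _ ≤ 4 ^ (d * r) := pow_le_pow_right₀ (by norm_num) (Nat.le_mul_of_pos_right d (by omega))
    nlinarith
  refine ⟨δ / (4 * C), 32 * C * M, by positivity, by nlinarith, ?_⟩
  intro α h a ρ S hρ h1 hS hm ha hN hU hP R hKR haR
  have hρ0 : 0 < ρ := by linarith
  have hρr : ρ ≤ ρ ^ r := le_self_pow₀ hρ (by omega)
  have hKM : 32 ≤ 32 * C * M := by nlinarith
  have hρR : 32 * ρ ≤ R := by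
    refine le_trans ?_ hKR
    have : 0 < ρ ^ r := by positivity
    nlinarith
  have hR1 : 1 ≤ R := by linarith
  have hR0 : 0 < R := by linarith
  have haR0 : 0 < a R := by linarith
  set T : ℝ := δ * R ^ d with hT
  have hT0 : 0 < T := by positivity
  have hTR : T ≤ R ^ d := by
    rw [hT]
    have : 0 < R ^ d := by positivity
    nlinarith
  -- the number of points of small height
  have key : ∀ i : ℕ, (2 : ℝ) ^ i ≤ T → ((S (T / 2 ^ i)).card : ℝ) ≤
      M * ((ρ / R) ^ (d * r) + (C * δ / 2 ^ i) ^ r) * a R := by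
    intro i hi
    have hTi : 1 ≤ T / 2 ^ i := by rw [one_le_div (by positivity)]; exact hi
    set y : ℝ := (C * (T / 2 ^ i)) ^ (1 / (d : ℝ)) with hy
    have hy0 : 0 ≤ y := by rw [hy]; exact Real.rpow_nonneg (by positivity) _
    have hyd : y ^ d = C * (T / 2 ^ i) := by
      rw [hy, one_div]
      exact Real.rpow_inv_natCast_pow (by positivity) hd0
    have hydR : (y / R) ^ d = C * δ / 2 ^ i := by
      rw [div_pow, hyd, hT]
      field_simp
    have hyR : 2 * y ≤ R := by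
      have h2 : (y / R) ^ d ≤ (1 / 2) ^ d := by
        rw [hydR]
        refine le_trans ?_ hCδ
        exact div_le_self (by positivity) (one_le_pow₀ (by norm_num))
      have h3 : y / R ≤ 1 / 2 := (pow_le_pow_iff_left₀ (by positivity) (by norm_num) hd0).1 h2
      rw [div_le_iff₀ hR0] at h3
      linarith
    refine (hN _ hTi).trans ?_
    have := pack hρ hm ha hP hy0 (by linarith) hyR
    rw [pow_mul (y / R), hydR] at this
    exact this
  -- the sum over the points of small height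
  obtain ⟨J, hJ1, hJ2⟩ : ∃ J : ℕ, T < 2 ^ J ∧ ∀ i < J, (2 : ℝ) ^ i ≤ T := by
    have hex : ∃ J : ℕ, T < 2 ^ J := pow_unbounded_of_one_lt T (by norm_num)
    refine ⟨Nat.find hex, Nat.find_spec hex, fun i hi => ?_⟩
    have := Nat.find_min hex hi
    exact not_lt.1 this
  have hlow : ∑ x ∈ S T, C * R ^ d / h x ≤ a R / 4 := by
    have e1 : ∑ x ∈ S T, C * R ^ d / h x = C * R ^ d * ∑ x ∈ S T, 1 / h x := by
      rw [Finset.mul_sum]
      refine Finset.sum_congr rfl fun x _ => ?_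
      ring
    rw [e1]
    have e2 := low h1 hS hT0 hJ1
    have e3 : ∑ i ∈ Finset.range J, (2 : ℝ) ^ (i + 1) / T * ((S (T / 2 ^ i)).card : ℝ) ≤
        ∑ i ∈ Finset.range J, (2 : ℝ) ^ (i + 1) / T *
          (M * ((ρ / R) ^ (d * r) + (C * δ / 2 ^ i) ^ r) * a R) := by
      refine Finset.sum_le_sum fun i hi => ?_
      apply mul_le_mul_of_nonneg_left (key i (hJ2 i (Finset.mem_range.1 hi))) (by positivity)
    have e4 : ∀ i ∈ Finset.range J, (2 : ℝ) ^ (i + 1) / T *
          (M * ((ρ / R) ^ (d * r) + (C * δ / 2 ^ i) ^ r) * a R) ≤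
        M * a R / T * ((ρ / R) ^ (d * r) * (2 : ℝ) ^ (i + 1) + (C * δ) ^ r * (2 * (1 / 2) ^ i)) := by
      intro i _
      have e5 : (2 : ℝ) ^ (i + 1) * (C * δ / 2 ^ i) ^ r ≤ (C * δ) ^ r * (2 * (1 / 2) ^ i) := by
        rw [div_pow, ← pow_mul]
        have e6 : (2 : ℝ) ^ (i + 1) / 2 ^ (i * r) ≤ 2 * (1 / 2) ^ i := by
          rw [div_le_iff₀ (by positivity), one_div_pow]
          have e7 : (2 : ℝ) ^ (2 * i) ≤ 2 ^ (i * r) :=
            pow_le_pow_right₀ (by norm_num) (by nlinarith)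
          have e8 : (2 : ℝ) ^ (2 * i) = 2 ^ i * 2 ^ i := by rw [two_mul, pow_add]
          have e9 : (0 : ℝ) < 2 ^ i := by positivity
          rw [e8] at e7
          calc (2 : ℝ) ^ (i + 1) = 2 * (1 / 2 ^ i) * (2 ^ i * 2 ^ i) := by
                rw [pow_succ]; field_simp
            _ ≤ 2 * (1 / 2 ^ i) * 2 ^ (i * r) := by gcongr
        calc (2 : ℝ) ^ (i + 1) * ((C * δ) ^ r / 2 ^ (i * r))
            = (C * δ) ^ r * ((2 : ℝ) ^ (i + 1) / 2 ^ (i * r)) := by ring
          _ ≤ _ := by gcongr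
      have e10 : (0 : ℝ) ≤ M * a R / T := by positivity
      calc (2 : ℝ) ^ (i + 1) / T * (M * ((ρ / R) ^ (d * r) + (C * δ / 2 ^ i) ^ r) * a R)
          = M * a R / T * ((ρ / R) ^ (d * r) * (2 : ℝ) ^ (i + 1) +
              (2 : ℝ) ^ (i + 1) * (C * δ / 2 ^ i) ^ r) := by ring
        _ ≤ _ := by
            apply mul_le_mul_of_nonneg_left _ e10
            linarith
    have e11 := Finset.sum_le_sum e4
    rw [← Finset.mul_sum, Finset.sum_add_distrib, ← Finset.mul_sum, ← Finset.mul_sum] at e11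
    have g1 := geo1 hT0.le hJ2
    have g2 := geo2 J
    have hρRr : (0 : ℝ) ≤ (ρ / R) ^ (d * r) := by positivity
    have hCδr : (0 : ℝ) ≤ (C * δ) ^ r := by positivity
    have e12 : (ρ / R) ^ (d * r) * ∑ i ∈ Finset.range J, (2 : ℝ) ^ (i + 1) +
        (C * δ) ^ r * ∑ i ∈ Finset.range J, (2 : ℝ) * (1 / 2) ^ i ≤
        (ρ / R) ^ (d * r) * (4 * T) + (C * δ) ^ r * 4 := by
      gcongr
    have e13 : ∑ x ∈ S T, 1 / h x ≤ M * a R / T * ((ρ / R) ^ (d * r) * (4 * T) + (C * δ) ^ r * 4) := by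
      refine e2.trans (e3.trans (e11.trans ?_))
      apply mul_le_mul_of_nonneg_left e12 (by positivity)
    have e14 : C * R ^ d * ∑ x ∈ S T, 1 / h x ≤
        C * R ^ d * (M * a R / T * ((ρ / R) ^ (d * r) * (4 * T) + (C * δ) ^ r * 4)) := by
      apply mul_le_mul_of_nonneg_left e13 (by positivity)
    refine e14.trans ?_
    have e15 : C * R ^ d * (M * a R / T * ((ρ / R) ^ (d * r) * (4 * T) + (C * δ) ^ r * 4)) =
        (4 * C * M * (R ^ d * (ρ / R) ^ (d * r)) + 4 * C * M * ((C * δ) ^ r / δ)) * a R := by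
      rw [hT]
      have : R ^ d ≠ 0 := by positivity
      field_simp
    rw [e15]
    have e16 : 4 * C * M * (R ^ d * (ρ / R) ^ (d * r)) ≤ 1 / 8 := by
      have f1 : R ^ d * (ρ / R) ^ (d * r) = (R * (ρ / R) ^ r) ^ d := by
        rw [mul_pow, ← pow_mul, mul_comm r d]
      have f2 : R * (ρ / R) ^ r ≤ 1 / (32 * C * M) := by
        have f3 : R * R ≤ R ^ r := by
          calc R * R = R ^ 2 := by ring
            _ ≤ R ^ r := pow_le_pow_right₀ hR1 hr
        rw [div_pow, le_div_iff₀ (by positivity)]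
        calc R * (ρ ^ r / R ^ r) * (32 * C * M) = R * (32 * C * M * ρ ^ r) / R ^ r := by ring
          _ ≤ R * R / R ^ r := by gcongr
          _ ≤ 1 := by rw [div_le_one (by positivity)]; exact f3
      have f4 : 0 ≤ R * (ρ / R) ^ r := by positivity
      have f5 : 1 / (32 * C * M) ≤ 1 := by
        rw [div_le_one (by positivity)]; linarith
      have f6 : (R * (ρ / R) ^ r) ^ d ≤ 1 / (32 * C * M) :=
        (pow_le_of_le_one f4 (f2.trans f5) hd0).trans f2
      rw [f1]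
      calc 4 * C * M * (R * (ρ / R) ^ r) ^ d ≤ 4 * C * M * (1 / (32 * C * M)) := by gcongr
        _ = 1 / 8 := by field_simp; norm_num
    have e17 : 4 * C * M * ((C * δ) ^ r / δ) ≤ 1 / 8 := by
      have f1 : (C * δ) ^ r / δ ≤ C ^ r * δ := by
        rw [mul_pow, div_le_iff₀ hδ0]
        have : δ ^ r ≤ δ ^ 2 := pow_le_pow_of_le_one hδ0.le hδ1 hr
        calc C ^ r * δ ^ r ≤ C ^ r * δ ^ 2 := by gcongr
          _ = C ^ r * δ * δ := by ring
      calc 4 * C * M * ((C * δ) ^ r / δ) ≤ 4 * C * M * (C ^ r * δ) := by gcongr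
        _ = 1 / 8 := by
            rw [hδ, pow_succ]
            field_simp
            norm_num
    nlinarith
  -- the sum over the points of large height
  have hhigh : ∑ x ∈ (S (R ^ d)).filter (fun x => ¬ h x ≤ T), C * R ^ d / h x ≤
      C / δ * ((S (R ^ d)).card : ℝ) := by
    calc ∑ x ∈ (S (R ^ d)).filter (fun x => ¬ h x ≤ T), C * R ^ d / h x
        ≤ ∑ x ∈ (S (R ^ d)).filter (fun x => ¬ h x ≤ T), C / δ := by
          refine Finset.sum_le_sum fun x hx => ?_
          rw [Finset.mem_filter, not_le] at hx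
          have : 0 < h x := by have := h1 x; linarith
          rw [div_le_div_iff₀ this hδ0]
          have h2 := hx.2
          calc C * R ^ d * δ = C * T := by rw [hT]; ring
            _ ≤ C * h x := by gcongr
      _ = C / δ * (((S (R ^ d)).filter (fun x => ¬ h x ≤ T)).card : ℝ) := by
          rw [Finset.sum_const, nsmul_eq_mul, mul_comm]
      _ ≤ _ := by
          apply mul_le_mul_of_nonneg_left _ (by positivity)
          exact_mod_cast Finset.card_filter_le _ _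
  have hsplit : ∑ x ∈ S (R ^ d), C * R ^ d / h x = ∑ x ∈ S T, C * R ^ d / h x +
      ∑ x ∈ (S (R ^ d)).filter (fun x => ¬ h x ≤ T), C * R ^ d / h x := by
    rw [← Finset.sum_filter_add_sum_filter_not (S (R ^ d)) (fun x => h x ≤ T)]
    congr 1
    refine Finset.sum_congr ?_ fun _ _ => rfl
    ext x
    rw [Finset.mem_filter, hS, hS]
    exact ⟨fun hx => hx.2, fun hx => ⟨hx.trans hTR, hx⟩⟩
  have hU' := hU R hR1
  rw [hsplit] at hU'
  have hfin : a R / 4 ≤ C / δ * ((S (R ^ d)).card : ℝ) := by linarith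
  have h5 : δ / (4 * C) * a R = δ / C * (a R / 4) := by field_simp
  rw [h5]
  calc δ / C * (a R / 4) ≤ δ / C * (C / δ * ((S (R ^ d)).card : ℝ)) := by gcongr
    _ = ((S (R ^ d)).card : ℝ) := by field_simp

end Pool.Agent.U803.BL
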